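import Pool.Agent.Q9.SS.Tot

/-!
# From pairs to semistable curves
-/

set_option autoImplicit false

namespace Pool.Agent.Q9.SS

open Finset Filter Topology
open Pool.Agent.TH498.AR (nn rd)
open Pool.Agent.H925R.Szpiro (cond Full)
open Pool.Agent.Y680.S (ff fA exists_pair curve_of ff_inj)
open Pool.Agent.Y679.Jl (Cj Fl)

/-- semistable with full 2-torsion -/
def Good (W : WeierstrassCurve ℤ) : Prop := W.Δ ≠ 0 ∧ IsCoprime W.c₄ W.Δ ∧ Full W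

/-- the curve `W` belongs to the pair `p` -/
def Mt (W : WeierstrassCurve ℤ) (p : ℕ × ℕ) : Prop :=
  p ∈ PQ ∧ (W.c₄, W.c₆) = ff p ∧ W.Δ = (mm p : ℤ) ^ 2

theorem disc_of {W : WeierstrassCurve ℤ} {p : ℕ × ℕ} (h16 : 16 ∣ nn p)
    (h : 256 * W.Δ = (((p.1 * p.2 * (p.1 + p.2) : ℕ)) : ℤ) ^ 2) : W.Δ = (mm p : ℤ) ^ 2 := by
  have e : p.1 * p.2 * (p.1 + p.2) = 16 * mm p := nn_mm h16
  rw [e] at h
  have : 256 * W.Δ = 256 * (mm p : ℤ) ^ 2 := by rw [h]; push_cast; ring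
  linarith

theorem match_W {W : WeierstrassCurve ℤ} (h : Good W) : ∃ p, Mt W p := by
  obtain ⟨p, a1, a2, a3, a4, a5, a6⟩ := exists_pair W h.1 h.2.1 h.2.2
  exact ⟨p, ⟨a1, a2, a3, a4⟩, a5, disc_of a4 a6⟩

theorem match_p {p : ℕ × ℕ} (h : p ∈ PQ) : ∃ W, Good W ∧ Mt W p := by
  obtain ⟨W, w1, w2, w3, w4, w5⟩ := curve_of h.1 h.2.1 h.2.2.1 h.2.2.2
  exact ⟨W, ⟨w1, w2, w3⟩, h, w4, disc_of h.2.2.2 w5⟩

theorem Mt.c4_eq {W : WeierstrassCurve ℤ} {p : ℕ × ℕ} (h : Mt W p) : W.c₄ = (c4 p : ℤ) := by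
  have h1 := congrArg Prod.fst h.2.1
  simp only at h1
  rw [h1]
  show fA p = _
  unfold fA c4
  push_cast
  ring

theorem Mt.cond_eq {W : WeierstrassCurve ℤ} {p : ℕ × ℕ} (h : Mt W p) : cond W = rd (mm p) := by
  unfold Pool.Agent.H925R.Szpiro.cond rd
  rw [h.2.2, Int.natAbs_pow, Int.natAbs_natCast, Nat.primeFactors_pow _ (by norm_num)]

theorem Mt_inj {W W' : WeierstrassCurve ℤ} {p p' : ℕ × ℕ} (h : Mt W p) (h' : Mt W' p')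
    (he : (W.c₄, W.c₆) = (W'.c₄, W'.c₆)) : p = p' := by
  obtain ⟨e4, e6⟩ := Prod.mk.inj he
  have hD : W.Δ = W'.Δ := by
    have r1 := W.c_relation
    have r2 := W'.c_relation
    rw [e4, e6, ← r2] at r1
    linarith
  have hm : mm p = mm p' := by
    have h1 : (mm p : ℤ) ^ 2 = (mm p' : ℤ) ^ 2 := by rw [← h.2.2, ← h'.2.2, hD]
    have h2 : (mm p) ^ 2 = (mm p') ^ 2 := by exact_mod_cast h1
    exact Nat.pow_left_injective (by norm_num : 2 ≠ 0) h2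
  refine ff_inj h.1.1 h.1.2.1 h'.1.1 h'.1.2.1 ?_ ?_
  · have h1 := h.c4_eq
    have h2 := h'.c4_eq
    have h3 : ff p = ff p' := h.2.1.symm.trans (he.trans h'.2.1)
    exact congrArg Prod.fst h3
  · show nn p = nn p'
    rw [nn_mm h.1.2.2.2, nn_mm h'.1.2.2.2, hm]

/-- transfer of counts -/
theorem transfer {P : WeierstrassCurve ℤ → Prop} {R : ℕ × ℕ → Prop}
    (h : ∀ W p, Good W → Mt W p → (P W ↔ R p)) :
    {q : ℤ × ℤ | ∃ W, Good W ∧ q = (W.c₄, W.c₆) ∧ P W}.ncard = {p | p ∈ PQ ∧ R p}.ncard ∧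
      ({p | p ∈ PQ ∧ R p}.Finite → {q : ℤ × ℤ | ∃ W, Good W ∧ q = (W.c₄, W.c₆) ∧ P W}.Finite) := by
  have himg : {q : ℤ × ℤ | ∃ W, Good W ∧ q = (W.c₄, W.c₆) ∧ P W} = ff '' {p | p ∈ PQ ∧ R p} := by
    ext q
    constructor
    · rintro ⟨W, hW, rfl, hP⟩
      obtain ⟨p, hp⟩ := match_W hW
      exact ⟨p, ⟨hp.1, (h W p hW hp).1 hP⟩, hp.2.1.symm⟩
    · rintro ⟨p, ⟨hp, hR⟩, rfl⟩
      obtain ⟨W, hW, hm⟩ := match_p hp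
      exact ⟨W, hW, hm.2.1.symm, (h W p hW hm).2 hR⟩
  have hinj : Set.InjOn ff {p | p ∈ PQ ∧ R p} := by
    rintro p ⟨hp, -⟩ p' ⟨hp', -⟩ he
    obtain ⟨W, hW, hm⟩ := match_p hp
    obtain ⟨W', hW', hm'⟩ := match_p hp'
    exact Mt_inj hm hm' (hm.2.1.trans (he.trans hm'.2.1.symm))
  rw [himg]
  exact ⟨hinj.ncard_image, fun hf => hf.image _⟩

/-- the curves of conductor at most `N` -/
def SC' (N : ℝ) : Set (ℤ × ℤ) := {q | ∃ W, Good W ∧ q = (W.c₄, W.c₆) ∧ (cond W : ℝ) ≤ N}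

theorem SC_count (N : ℝ) : (SC' N).ncard = (PP N).ncard ∧ (SC' N).Finite := by
  have h := transfer (P := fun W => (cond W : ℝ) ≤ N) (R := fun p => (rd (mm p) : ℝ) ≤ N)
    (fun W p _ hm => by rw [hm.cond_eq])
  exact ⟨h.1, h.2 (PP_fin N)⟩

/-- quotient `w`, `j ≤ 1728 t` -/
def SJ (w : ℕ) (t N : ℝ) : Set (ℤ × ℤ) :=
  {q | ∃ W, Good W ∧ q = (W.c₄, W.c₆) ∧ (cond W : ℝ) ≤ N ∧ W.Δ = ((w * cond W : ℕ) : ℤ) ^ 2 ∧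
    (W.c₄ : ℝ) ^ 3 ≤ 1728 * t * (W.Δ : ℝ)}

theorem SJ_count (w : ℕ) (t N : ℝ) : (SJ w t N).ncard = (Pj w t N).ncard := by
  have h := transfer (P := fun W => (cond W : ℝ) ≤ N ∧ W.Δ = ((w * cond W : ℕ) : ℤ) ^ 2 ∧
    (W.c₄ : ℝ) ^ 3 ≤ 1728 * t * (W.Δ : ℝ))
    (R := fun p => (rd (mm p) : ℝ) ≤ N ∧ mm p = w * rd (mm p) ∧ Cj t ((p.1 : ℝ) / p.2))
    (fun W p _ hm => by
      rw [hm.cond_eq, hm.c4_eq, Cj_c4 hm.1, hm.2.2]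
      push_cast
      refine and_congr_right fun _ => and_congr_left fun _ => ?_
      constructor
      · intro h
        have h2 : (mm p) ^ 2 = (w * rd (mm p)) ^ 2 := by exact_mod_cast h
        exact Nat.pow_left_injective (by norm_num : 2 ≠ 0) h2
      · intro h
        have h2 : (mm p) ^ 2 = (w * rd (mm p)) ^ 2 := by rw [← h]
        exact_mod_cast h2)
  refine h.1.trans (congrArg Set.ncard ?_)
  ext p
  exact ⟨fun h => ⟨⟨h.1, h.2.1⟩, h.2.2⟩, fun h => ⟨h.1.1, h.1.2, h.2⟩⟩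

/-- `c₄ ³ ≤ K N²` -/
def SK (K N : ℝ) : Set (ℤ × ℤ) :=
  {q | ∃ W, Good W ∧ q = (W.c₄, W.c₆) ∧ (cond W : ℝ) ≤ N ∧ (W.c₄ : ℝ) ^ 3 ≤ K * (cond W : ℝ) ^ 2}

theorem SK_count (K N : ℝ) : (SK K N).ncard = (PK K N).ncard := by
  have h := transfer (P := fun W => (cond W : ℝ) ≤ N ∧ (W.c₄ : ℝ) ^ 3 ≤ K * (cond W : ℝ) ^ 2)
    (R := fun p => (rd (mm p) : ℝ) ≤ N ∧ (c4 p : ℝ) ^ 3 ≤ K * (rd (mm p) : ℝ) ^ 2)
    (fun W p _ hm => by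
      rw [hm.cond_eq, hm.c4_eq]
      push_cast
      rfl)
  refine h.1.trans (congrArg Set.ncard ?_)
  ext p
  exact ⟨fun h => ⟨⟨h.1, h.2.1⟩, h.2.2⟩, fun h => ⟨h.1.1, h.1.2, h.2⟩⟩

/-- `c₄ ³ > K N²` -/
def SH (K N : ℝ) : Set (ℤ × ℤ) :=
  {q | ∃ W, Good W ∧ q = (W.c₄, W.c₆) ∧ (cond W : ℝ) ≤ N ∧ K * (cond W : ℝ) ^ 2 < (W.c₄ : ℝ) ^ 3}

theorem SH_count (K N : ℝ) : (SH K N).ncard = (PH K N).ncard := by
  have h := transfer (P := fun W => (cond W : ℝ) ≤ N ∧ K * (cond W : ℝ) ^ 2 < (W.c₄ : ℝ) ^ 3)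
    (R := fun p => (rd (mm p) : ℝ) ≤ N ∧ K * (rd (mm p) : ℝ) ^ 2 < (c4 p : ℝ) ^ 3)
    (fun W p _ hm => by
      rw [hm.cond_eq, hm.c4_eq]
      push_cast
      rfl)
  refine h.1.trans (congrArg Set.ncard ?_)
  ext p
  exact ⟨fun h => ⟨⟨h.1, h.2.1⟩, h.2.2⟩, fun h => ⟨h.1.1, h.1.2, h.2⟩⟩

/-- `Δ > K N²` -/
def SD (K N : ℝ) : Set (ℤ × ℤ) :=
  {q | ∃ W, Good W ∧ q = (W.c₄, W.c₆) ∧ (cond W : ℝ) ≤ N ∧ K * (cond W : ℝ) ^ 2 < (W.Δ : ℝ)}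

theorem SD_count (K N : ℝ) : (SD K N).ncard =
    {p | p ∈ PP N ∧ K * (rd (mm p) : ℝ) ^ 2 < (mm p : ℝ) ^ 2}.ncard := by
  have h := transfer (P := fun W => (cond W : ℝ) ≤ N ∧ K * (cond W : ℝ) ^ 2 < (W.Δ : ℝ))
    (R := fun p => (rd (mm p) : ℝ) ≤ N ∧ K * (rd (mm p) : ℝ) ^ 2 < (mm p : ℝ) ^ 2)
    (fun W p _ hm => by
      rw [hm.cond_eq, hm.2.2]
      push_cast
      rfl)
  refine h.1.trans (congrArg Set.ncard ?_)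
  ext p
  exact ⟨fun h => ⟨⟨h.1, h.2.1⟩, h.2.2⟩, fun h => ⟨h.1.1, h.1.2, h.2⟩⟩

/-- the quotient -/
theorem quotient {W : WeierstrassCurve ℤ} (h : Good W) :
    ∃ w : ℕ, 1 ≤ w ∧ W.Δ = ((w * cond W : ℕ) : ℤ) ^ 2 ∧ 1728 * W.Δ ≤ W.c₄ ^ 3 := by
  obtain ⟨p, hp⟩ := match_W h
  obtain ⟨w, hw, hq⟩ := exists_quot hp.1
  refine ⟨w, hw, ?_, ?_⟩
  · rw [hp.cond_eq, hp.2.2, ← hq]
  · rw [hp.c4_eq, hp.2.2]
    have := mm_ge hp.1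
    exact_mod_cast this

/-- the number is positive in the limit -/
theorem A_pos {A : ℝ} (h : Tendsto (fun N : ℝ => ((PP N).ncard : ℝ) / N ^ ((2 : ℝ) / 3)) atTop (𝓝 A)) : 0 < A := by
  obtain ⟨κ, hκ, hlim⟩ := Pool.Agent.Y680.S.main_asy
  have e : ∀ X : ℝ, (Pool.Agent.Y680.S.SC X).ncard = (PP X).ncard := by
    intro X
    rw [← (SC_count X).1]
    congr 1
    ext q
    constructor
    · rintro ⟨W, w1, w2, w3, w4, w5⟩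
      exact ⟨W, ⟨w1, w2, w3⟩, w4, w5⟩
    · rintro ⟨W, ⟨w1, w2, w3⟩, w4, w5⟩
      exact ⟨W, w1, w2, w3, w4, w5⟩
  simp only [e] at hlim
  rw [tendsto_nhds_unique h hlim]
  exact hκ

end Pool.Agent.Q9.SS
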