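import Mathlib

/-!
# Summation of limits with a uniform tail bound
-/

set_option autoImplicit false

namespace Pool.Agent.Q9.SS

open Finset Filter Topology

/-- counts `F w N ~ α w N ^ (2/3)` with a uniform tail bound may be summed -/
theorem sum_limit {T : ℝ → ℝ} {F : ℕ → ℝ → ℝ} {α : ℕ → ℝ} {η C σ : ℝ} (hη : 0 < η) (hC : 0 < C) (hσ : 0 < σ)
    (hα0 : α 0 = 0) (hα : ∀ w, 0 ≤ α w)
    (hlim : ∀ w, Tendsto (fun N : ℝ => F w N / N ^ ((2 : ℝ) / 3)) atTop (𝓝 (α w)))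
    (hlow : ∀ (W : ℕ) (N : ℝ), 1 ≤ N → ∑ w ∈ Icc 1 W, F w N ≤ T N)
    (hupp : ∀ W : ℕ, 1 ≤ W → ∀ N : ℝ, 1 ≤ N →
      T N ≤ ∑ w ∈ Icc 1 W, F w N + C * ((W : ℝ) ^ (-σ) * N ^ ((2 : ℝ) / 3) + N ^ (2 / 3 - η))) :
    ∃ K : ℝ, HasSum α K ∧ Tendsto (fun N : ℝ => T N / N ^ ((2 : ℝ) / 3)) atTop (𝓝 K) := by
  classical
  obtain ⟨U, hU⟩ : ∃ U : ℝ → ℝ, U = fun N => T N / N ^ ((2 : ℝ) / 3) := ⟨_, rfl⟩
  obtain ⟨V, hV⟩ : ∃ V : ℕ → ℝ → ℝ, V = fun W N => ∑ w ∈ Icc 1 W, F w N / N ^ ((2 : ℝ) / 3) := ⟨_, rfl⟩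
  have hVlim : ∀ W, Tendsto (V W) atTop (𝓝 (∑ w ∈ Icc 1 W, α w)) := by
    intro W
    rw [hV]
    exact tendsto_finsetSum _ fun w _ => hlim w
  have hlow' : ∀ W : ℕ, ∀ N : ℝ, 1 ≤ N → V W N ≤ U N := by
    intro W N hN
    rw [hV, hU]
    simp only
    rw [← sum_div]
    exact div_le_div_of_nonneg_right (hlow W N hN) (by positivity)
  have hupp' : ∀ W : ℕ, 1 ≤ W → ∀ N : ℝ, 1 ≤ N →
      U N ≤ V W N + C * ((W : ℝ) ^ (-σ) + N ^ (-η)) := by
    intro W hW N hN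
    have hN0 : 0 < N := by linarith
    have hNp : 0 < N ^ ((2 : ℝ) / 3) := by positivity
    rw [hV, hU]
    simp only
    rw [← sum_div, div_le_iff₀ hNp, add_mul, div_mul_cancel₀ _ hNp.ne']
    refine (hupp W hW N hN).trans (le_of_eq ?_)
    have : N ^ (2 / 3 - η) = N ^ (-η) * N ^ ((2 : ℝ) / 3) := by
      rw [← Real.rpow_add hN0]
      congr 1
      ring
    rw [this]
    ring
  have hbd : ∀ W : ℕ, ∑ w ∈ Icc 1 W, α w ≤ α 1 + 2 * C := by
    intro W
    have h1 : Tendsto (fun N : ℝ => V 1 N + 2 * C) atTop (𝓝 (α 1 + 2 * C)) := by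
      have := (hVlim 1).add_const (2 * C)
      simpa using this
    refine le_of_tendsto_of_tendsto (hVlim W) h1 ?_
    filter_upwards [eventually_ge_atTop 1] with N hN
    refine (hlow' W N hN).trans ((hupp' 1 le_rfl N hN).trans ?_)
    have h2 : N ^ (-η) ≤ 1 := Real.rpow_le_one_of_one_le_of_nonpos hN (by linarith)
    have h3 : ((1 : ℕ) : ℝ) ^ (-σ) = 1 := by simp
    rw [h3]
    have := mul_le_mul_of_nonneg_left h2 hC.le
    linarith
  have hsum : Summable α := by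
    refine summable_of_sum_range_le (c := α 0 + (α 1 + 2 * C)) hα fun n => ?_
    have h1 : ∑ w ∈ range n, α w ≤ α 0 + ∑ w ∈ Icc 1 n, α w := by
      have h2 : range n ⊆ insert 0 (Icc 1 n) := by
        intro w hw
        rw [mem_range] at hw
        rw [mem_insert, mem_Icc]
        omega
      refine (sum_le_sum_of_subset_of_nonneg h2 fun w _ _ => hα w).trans (le_of_eq ?_)
      rw [sum_insert (by simp)]
    exact h1.trans (add_le_add le_rfl (hbd n))
  obtain ⟨K, hK⟩ : ∃ K, K = ∑' w, α w := ⟨_, rfl⟩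
  have hHS : HasSum α K := by rw [hK]; exact hsum.hasSum
  have hpart : Tendsto (fun W : ℕ => ∑ w ∈ Icc 1 W, α w) atTop (𝓝 K) := by
    have h1 : Tendsto (fun W : ℕ => ∑ w ∈ range (W + 1), α w) atTop (𝓝 K) :=
      hHS.tendsto_sum_nat.comp (tendsto_add_atTop_nat 1)
    refine h1.congr fun W => ?_
    have : range (W + 1) = insert 0 (Icc 1 W) := by
      ext w
      rw [mem_range, mem_insert, mem_Icc]
      omega
    rw [this, sum_insert (by simp), hα0, zero_add]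
  have hlimT : Tendsto U atTop (𝓝 K) := by
    rw [Metric.tendsto_atTop]
    intro ε hε
    have h1 : Tendsto (fun W : ℕ => C * (W : ℝ) ^ (-σ)) atTop (𝓝 (C * 0)) :=
      ((tendsto_rpow_neg_atTop hσ).comp tendsto_natCast_atTop_atTop).const_mul C
    rw [mul_zero] at h1
    have h2 := h1.eventually (eventually_le_nhds (by positivity : (0 : ℝ) < ε / 8))
    have h3 := (Metric.tendsto_nhds.1 hpart) (ε / 8) (by positivity)
    obtain ⟨W, hW2, hW3, hW1⟩ := (h2.and (h3.and (eventually_ge_atTop 1))).exists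
    have h4 := (Metric.tendsto_nhds.1 (hVlim W)) (ε / 8) (by positivity)
    have h5 : Tendsto (fun N : ℝ => C * N ^ (-η)) atTop (𝓝 (C * 0)) :=
      (tendsto_rpow_neg_atTop hη).const_mul C
    rw [mul_zero] at h5
    have h6 := h5.eventually (eventually_le_nhds (by positivity : (0 : ℝ) < ε / 8))
    obtain ⟨N0, hN0⟩ := eventually_atTop.1 (h4.and (h6.and (eventually_ge_atTop 1)))
    refine ⟨N0, fun N hN => ?_⟩
    obtain ⟨k4, k6, k1⟩ := hN0 N hN
    have l1 := hlow' W N k1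
    have l2 := hupp' W hW1 N k1
    rw [Real.dist_eq, abs_lt] at hW3 k4
    rw [Real.dist_eq, abs_lt]
    constructor
    · linarith [hW3.1, k4.1]
    · linarith [hW3.2, k4.2]
  exact ⟨K, hHS, by rw [hU] at hlimT; exact hlimT⟩

end Pool.Agent.Q9.SS
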