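import Pool.Agent.Q9.SS.Loc
import Pool.Agent.Q9.SS.Sum
import Pool.Agent.Y679.Jl.Ph
import Pool.Agent.Y679.Jl.Ta

/-!
# The joint law of the quotient and of the invariant for the pairs
-/

set_option autoImplicit false

namespace Pool.Agent.Q9.SS

open Finset Filter Topology Pool.Agent.TH498.AR
open Pool.Agent.Y679.Par (IsLoc Sx Sx_fin)
open Pool.Agent.Y679.Jl (Th law Gi Gi_zero_pos Cj Cj_iff ps_ge_one Fl Fl_small Fl_big thr fixed' Fl_nonneg
  Fl_le_one Fl_tendsto)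
open Pool.Agent.Y911.AA (viol saving triples_finite')
open Pool.Agent.Results.MP_1ea25c_nt.AlmostAllTriples (triples rad3)

/-- the pairs of the curves -/
def PQ : Set (ℕ × ℕ) := {p | 0 < p.1 ∧ p.1 ≤ p.2 ∧ Nat.Coprime p.1 p.2 ∧ 16 ∣ nn p}

/-- those of conductor at most `N` -/
def PP (N : ℝ) : Set (ℕ × ℕ) := {p | p ∈ PQ ∧ (rd (mm p) : ℝ) ≤ N}

/-- quotient `w`, `j ≤ 1728 t` -/
def Pj (w : ℕ) (t N : ℝ) : Set (ℕ × ℕ) := {p | p ∈ PP N ∧ mm p = w * rd (mm p) ∧ Cj t ((p.1 : ℝ) / p.2)}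

/-- quotient `w` -/
def Pw (w : ℕ) (N : ℝ) : Set (ℕ × ℕ) := {p | p ∈ PP N ∧ mm p = w * rd (mm p)}

theorem nn_mm {p : ℕ × ℕ} (h : 16 ∣ nn p) : nn p = 16 * mm p := (Nat.mul_div_cancel' h).symm

theorem rd_dvd (n : ℕ) : rd n ∣ n := by
  unfold rd
  exact Nat.prod_primeFactors_dvd n

theorem rd_16 {k : ℕ} (hk : 0 < k) : rd (16 * k) ≤ 2 * rd k := by
  by_cases h : 2 ∣ k
  · rw [Pool.Agent.Y680.S.rd_16_even hk h]
    omega
  · rw [Pool.Agent.Y680.S.rd_16_odd hk h]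

theorem rd3_le {p : ℕ × ℕ} (h : p ∈ PQ) : (rad3 p : ℝ) ≤ 2 * rd (mm p) := by
  obtain ⟨h1, h2, h3, h4⟩ := h
  have e : rad3 p = rd (nn p) := rfl
  rw [e, nn_mm h4]
  exact_mod_cast rd_16 (mm_pos h1 (by omega) h4)

theorem PP_fin (N : ℝ) : (PP N).Finite := by
  refine (triples_finite' (2 * N)).subset ?_
  rintro p ⟨hp, hN⟩
  have h5 := rd3_le hp
  obtain ⟨h1, h2, h3, h4⟩ := hp
  exact ⟨h1, h2, h3, by linarith⟩

theorem Pw_eq {w : ℕ} (hw : 0 < w) {N : ℝ} (hN : 0 ≤ N) (τ : ℝ) :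
    {p | p ∈ Pw w N ∧ τ * p.2 ≤ p.1} = Sx (Th (Tw w) τ) ((16 * w * N) ^ ((1 : ℝ) / 3)) := by
  have hw0 : (0 : ℝ) < w := by exact_mod_cast hw
  have e3 : ((16 * w * N) ^ ((1 : ℝ) / 3)) ^ 3 = 16 * w * N := by
    rw [← Real.rpow_natCast, ← Real.rpow_mul (by positivity)]
    norm_num
  have key : ∀ p : ℕ × ℕ, 16 ∣ nn p → mm p = w * rd (mm p) →
      ((rd (mm p) : ℝ) ≤ N ↔ (p.1 : ℝ) * p.2 * (p.1 + p.2) ≤ 16 * w * N) := by
    intro p h1 h2
    have h3 : (p.1 : ℝ) * p.2 * (p.1 + p.2) = ((nn p : ℕ) : ℝ) := by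
      unfold nn
      push_cast
      ring
    have h4 : ((nn p : ℕ) : ℝ) = 16 * w * rd (mm p) := by
      have : nn p = 16 * (w * rd (mm p)) := by
        rw [← h2]
        exact nn_mm h1
      rw [this]
      push_cast
      ring
    rw [h3, h4]
    constructor
    · intro h
      exact mul_le_mul_of_nonneg_left h (by positivity)
    · intro h
      exact le_of_mul_le_mul_left h (by positivity)
  ext p
  constructor
  · rintro ⟨⟨⟨⟨h1, h2, h3, h4⟩, h5⟩, h6⟩, h7⟩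
    refine ⟨⟨⟨h1, by omega, h3, h4, h6⟩, h7⟩, h1, h2, ?_⟩
    rw [e3]
    exact (key p h4 h6).1 h5
  · rintro ⟨⟨⟨h1, h2, h3, h4, h6⟩, h7⟩, -, h8, h9⟩
    rw [e3] at h9
    exact ⟨⟨⟨⟨h1, h8, h3, h4⟩, (key p h4 h6).2 h9⟩, h6⟩, h7⟩

/-- the law of the ratio for a given quotient -/
theorem Pw_law {w : ℕ} (hw : 0 < w) : ∃ δ : ℝ, 0 ≤ δ ∧ ∀ τ : ℝ, 0 ≤ τ → τ ≤ 1 →
    Tendsto (fun N : ℝ => (({p | p ∈ Pw w N ∧ τ * p.2 ≤ p.1} : Set (ℕ × ℕ)).ncard : ℝ) / N ^ ((2 : ℝ) / 3))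
      atTop (𝓝 (δ * Gi τ)) := by
  obtain ⟨δ, hδ, h⟩ := law (Tw_loc hw)
  have hw0 : (0 : ℝ) < w := by exact_mod_cast hw
  refine ⟨δ * (16 * w) ^ ((2 : ℝ) / 3), by positivity, fun τ h0 h1 => ?_⟩
  have h2 : Tendsto (fun N : ℝ => (16 * w * N) ^ ((1 : ℝ) / 3)) atTop atTop :=
    (tendsto_rpow_atTop (by norm_num)).comp (tendsto_id.const_mul_atTop (by positivity))
  have h3 := ((h τ h0 h1).comp h2).mul_const (((16 : ℝ) * w) ^ ((2 : ℝ) / 3))
  have e : δ * (16 * (w : ℝ)) ^ ((2 : ℝ) / 3) * Gi τ = δ * Gi τ * (16 * (w : ℝ)) ^ ((2 : ℝ) / 3) := by ring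
  rw [e]
  refine h3.congr' ?_
  filter_upwards [eventually_gt_atTop 0] with N hN
  rw [Function.comp_apply, Pw_eq hw hN.le]
  have e2 : ((16 * w * N) ^ ((1 : ℝ) / 3)) ^ 2 = (16 * (w : ℝ)) ^ ((2 : ℝ) / 3) * N ^ ((2 : ℝ) / 3) := by
    rw [← Real.rpow_natCast, ← Real.rpow_mul (by positivity), ← Real.mul_rpow (by positivity) hN.le]
    norm_num
  rw [e2]
  have : (0 : ℝ) < (16 * (w : ℝ)) ^ ((2 : ℝ) / 3) := by positivity
  have : (0 : ℝ) < N ^ ((2 : ℝ) / 3) := by positivity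
  field_simp

theorem ratio_pos {p : ℕ × ℕ} (hp : p ∈ PQ) : 0 < (p.1 : ℝ) / p.2 ∧ (p.1 : ℝ) / p.2 ≤ 1 := by
  obtain ⟨h1, h2, -, -⟩ := hp
  have a1 : (0 : ℝ) < p.1 := by exact_mod_cast h1
  have a2 : (p.1 : ℝ) ≤ p.2 := by exact_mod_cast h2
  have a3 : (0 : ℝ) < p.2 := by linarith
  exact ⟨by positivity, (div_le_one a3).2 a2⟩

/-- **the joint law for a given quotient** -/
theorem Pj_limit (w : ℕ) : ∃ α : ℝ, 0 ≤ α ∧ (w = 0 → α = 0) ∧
    Tendsto (fun N : ℝ => ((Pw w N).ncard : ℝ) / N ^ ((2 : ℝ) / 3)) atTop (𝓝 α) ∧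
    ∀ t : ℝ, Tendsto (fun N : ℝ => ((Pj w t N).ncard : ℝ) / N ^ ((2 : ℝ) / 3)) atTop (𝓝 (α * Fl t)) := by
  rcases Nat.eq_zero_or_pos w with rfl | hw
  · have h0 : ∀ N : ℝ, Pw 0 N = ∅ := by
      intro N
      rw [Set.eq_empty_iff_forall_notMem]
      rintro p ⟨⟨⟨h1, h2, h3, h4⟩, -⟩, h5⟩
      have := mm_pos h1 (by omega) h4
      omega
    have h1 : ∀ t N : ℝ, Pj 0 t N = ∅ := by
      intro t N
      rw [Set.eq_empty_iff_forall_notMem]
      rintro p ⟨h1, h2, -⟩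
      have : p ∈ Pw 0 N := ⟨h1, h2⟩
      rw [h0] at this
      exact this
    refine ⟨0, le_rfl, fun _ => rfl, ?_, fun t => ?_⟩
    · simp only [h0, Set.ncard_empty, Nat.cast_zero, zero_div]
      exact tendsto_const_nhds
    · simp only [h1, Set.ncard_empty, Nat.cast_zero, zero_div, zero_mul]
      exact tendsto_const_nhds
  · obtain ⟨δ, hδ, h⟩ := Pw_law hw
    have hG := Gi_zero_pos
    refine ⟨δ * Gi 0, by positivity, fun h0 => by omega, ?_, fun t => ?_⟩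
    · have e : ∀ N : ℝ, Pw w N = {p | p ∈ Pw w N ∧ (0 : ℝ) * p.2 ≤ p.1} := by
        intro N
        ext p
        constructor
        · intro hp
          refine ⟨hp, ?_⟩
          rw [zero_mul]
          exact Nat.cast_nonneg _
        · rintro ⟨hp, -⟩
          exact hp
      have h2 := h 0 le_rfl zero_le_one
      simp only [← e] at h2
      exact h2
    · rcases lt_or_ge t 1 with ht | ht
      · have e : ∀ N : ℝ, Pj w t N = ∅ := by
          intro N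
          rw [Set.eq_empty_iff_forall_notMem]
          rintro p ⟨h1, -, h3⟩
          rw [Cj_iff (ratio_pos h1.1).1] at h3
          have := ps_ge_one (ratio_pos h1.1).1
          linarith
        simp only [e, Set.ncard_empty, Nat.cast_zero, zero_div, Fl_small ht, mul_zero]
        exact tendsto_const_nhds
      · obtain ⟨τ, t0, t1, -, t2⟩ := thr ht
        have e : ∀ N : ℝ, Pj w t N = {p | p ∈ Pw w N ∧ τ * p.2 ≤ p.1} := by
          intro N
          ext p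
          have key : p ∈ PQ → (Cj t ((p.1 : ℝ) / p.2) ↔ τ * p.2 ≤ p.1) := by
            intro hp
            have a3 : (0 : ℝ) < p.2 := by
              have : 0 < p.2 := by have := hp.1; have := hp.2.1; omega
              exact_mod_cast this
            rw [t2 _ (ratio_pos hp).1 (ratio_pos hp).2, le_div_iff₀ a3]
          constructor
          · rintro ⟨h1, h2, h3⟩
            exact ⟨⟨h1, h2⟩, (key h1.1).1 h3⟩
          · rintro ⟨⟨h1, h2⟩, h3⟩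
            exact ⟨h1, h2, (key h1.1).2 h3⟩
        simp only [e]
        have e2 : δ * Gi 0 * Fl t = δ * Gi τ := by
          rw [Fl_big t0 t1 t2]
          field_simp
        rw [e2]
        exact h τ t0.le t1

end Pool.Agent.Q9.SS
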