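import Pool.Agent.Y679.Jl.Law
import Pool.Agent.Y680.S.Top

/-!
# Semistable curves with full 2-torsion and a given quotient `√Δ / N`: the pairs are given by local conditions
-/

set_option autoImplicit false

namespace Pool.Agent.Q9.SS

open Finset Filter Topology Pool.Agent.TH498.AR
open Pool.Agent.Y679.Par (IsLoc fact_iff Sx)

/-- the square root of the discriminant -/
def mm (p : ℕ × ℕ) : ℕ := nn p / 16

/-- the pairs with quotient `w` -/
def Tw (w : ℕ) : Set (ℕ × ℕ) :=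
  {p | 0 < p.1 ∧ 0 < p.2 ∧ Nat.Coprime p.1 p.2 ∧ 16 ∣ nn p ∧ mm p = w * rd (mm p)}

theorem rd_pos (n : ℕ) : 0 < rd n := Finset.prod_pos fun _ hp => (Nat.prime_of_mem_primeFactors hp).pos

theorem fact_rd {n : ℕ} (hn : 0 < n) {q : ℕ} (hq : q.Prime) :
    (rd n).factorization q = if q ∣ n then 1 else 0 := by
  unfold rd
  rw [Nat.factorization_prod (fun i hi => (Nat.prime_of_mem_primeFactors hi).ne_zero),
    Finsupp.finsetSum_apply]
  have h3 : ∀ i ∈ n.primeFactors, (i : ℕ).factorization q = if i = q then 1 else 0 := by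
    intro i hi
    rw [(Nat.prime_of_mem_primeFactors hi).factorization, Finsupp.single_apply]
  rw [sum_congr rfl h3, sum_ite_eq']
  by_cases h4 : q ∣ n
  · rw [if_pos h4, if_pos (Nat.mem_primeFactors.2 ⟨hq, h4, hn.ne'⟩)]
  · rw [if_neg h4, if_neg fun h => h4 (Nat.dvd_of_mem_primeFactors h)]

/-- the exponent -/
def kk (q m : ℕ) : ℕ := if q ∣ m then 1 else 0

theorem kk_le (q m : ℕ) : kk q m ≤ 1 := by
  unfold kk
  split_ifs <;> omega

/-- the local conditions -/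
def Rl (w P0 : ℕ) (p : ℕ × ℕ) : Prop :=
  16 ∣ nn p ∧ ∀ q : ℕ, q.Prime → q ≤ P0 → ¬ (q ∣ p.1 ∧ q ∣ p.2) ∧
    q ^ (w.factorization q + kk q (mm p)) ∣ mm p ∧ ¬ q ^ (w.factorization q + kk q (mm p) + 1) ∣ mm p

/-- the modulus -/
def Mo (w P0 : ℕ) : ℕ := (P0.factorial) ^ (w + 4)

theorem Mo_pos (w P0 : ℕ) : 0 < Mo w P0 := by
  unfold Mo
  positivity

theorem dvd_Mo {w P0 q e : ℕ} (hq : q.Prime) (hqP : q ≤ P0) (he : e ≤ w + 4) : q ^ e ∣ Mo w P0 := by
  unfold Mo
  exact (pow_dvd_pow q he).trans (pow_dvd_pow_of_dvd (Nat.dvd_factorial hq.pos hqP) _)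

theorem Rl_congr {w P0 : ℕ} (hw : 0 < w) {p p' : ℕ × ℕ}
    (h1 : p.1 % (16 * Mo w P0) = p'.1 % (16 * Mo w P0)) (h2 : p.2 % (16 * Mo w P0) = p'.2 % (16 * Mo w P0))
    (h : Rl w P0 p) : Rl w P0 p' := by
  have key1 : ∀ {Q d x y : ℕ}, d ∣ Q → x ≡ y [MOD Q] → (d ∣ x ↔ d ∣ y) := by
    intro Q d x y hd hxy
    have h3 : x ≡ y [MOD d] := Nat.ModEq.of_dvd hd hxy
    exact ⟨fun hx => Nat.modEq_zero_iff_dvd.1 (h3.symm.trans (Nat.modEq_zero_iff_dvd.2 hx)),
      fun hx => Nat.modEq_zero_iff_dvd.1 (h3.trans (Nat.modEq_zero_iff_dvd.2 hx))⟩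
  have e1 : p.1 ≡ p'.1 [MOD 16 * Mo w P0] := h1
  have e2 : p.2 ≡ p'.2 [MOD 16 * Mo w P0] := h2
  have hn : nn p ≡ nn p' [MOD 16 * Mo w P0] := by
    unfold nn
    exact (e1.mul e2).mul (e1.add e2)
  obtain ⟨a1, a2⟩ := h
  have a1' : 16 ∣ nn p' := (key1 (Dvd.intro _ rfl) hn).1 a1
  have em : nn p = 16 * mm p := (Nat.mul_div_cancel' a1).symm
  have em' : nn p' = 16 * mm p' := (Nat.mul_div_cancel' a1').symm
  have hm : mm p ≡ mm p' [MOD Mo w P0] := by
    rw [em, em'] at hn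
    exact Nat.ModEq.mul_left_cancel' (by norm_num) hn
  refine ⟨a1', fun q hq hqP => ?_⟩
  obtain ⟨b1, b2, b3⟩ := a2 q hq hqP
  have hf : w.factorization q < w := Nat.factorization_lt q hw.ne'
  have hq1 : q ∣ Mo w P0 := by
    have := dvd_Mo (w := w) (e := 1) hq hqP (by omega)
    rwa [pow_one] at this
  have hq16 : q ∣ 16 * Mo w P0 := hq1.mul_left _
  have hk : kk q (mm p') = kk q (mm p) := by
    unfold kk
    have c1 := key1 hq1 hm
    by_cases d1 : q ∣ mm p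
    · rw [if_pos d1, if_pos (c1.1 d1)]
    · rw [if_neg d1, if_neg fun hh => d1 (c1.2 hh)]
  have hk2 := kk_le q (mm p)
  refine ⟨fun hc => b1 ⟨(key1 hq16 e1).2 hc.1, (key1 hq16 e2).2 hc.2⟩, ?_, ?_⟩
  · rw [hk]
    exact (key1 (dvd_Mo hq hqP (by omega)) hm).1 b2
  · rw [hk]
    exact fun hc => b3 ((key1 (dvd_Mo hq hqP (by omega)) hm).2 hc)

theorem mm_pos {p : ℕ × ℕ} (h1 : 0 < p.1) (h2 : 0 < p.2) (h : 16 ∣ nn p) : 0 < mm p := by
  have hn : 0 < nn p := nn_pos h1 h2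
  have em : nn p = 16 * mm p := (Nat.mul_div_cancel' h).symm
  omega

theorem Tw_loc {w : ℕ} (hw : 0 < w) : IsLoc (Tw w) := by
  classical
  intro P1
  obtain ⟨P0, hP0⟩ : ∃ P0, P0 = max (max P1 2) w := ⟨_, rfl⟩
  have hP1 : P1 ≤ P0 := by rw [hP0]; exact (le_max_left _ _).trans (le_max_left _ _)
  have hP5 : 2 ≤ P0 := by rw [hP0]; exact (le_max_right _ _).trans (le_max_left _ _)
  have hPw : w ≤ P0 := by rw [hP0]; exact le_max_right _ _
  have hQ0 : 0 < 16 * Mo w P0 := Nat.mul_pos (by norm_num) (Mo_pos w P0)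
  refine ⟨P0, hP1, 16 * Mo w P0, hQ0,
    (range (16 * Mo w P0) ×ˢ range (16 * Mo w P0)).filter (fun t => Rl w P0 t), filter_subset _ _, ?_, ?_⟩
  · rintro p ⟨h1, h2, h3, h4, h5⟩
    have hm : 0 < mm p := mm_pos h1 h2 h4
    rw [mem_filter, mem_product, mem_range, mem_range]
    refine ⟨⟨Nat.mod_lt _ hQ0, Nat.mod_lt _ hQ0⟩, ?_⟩
    refine Rl_congr hw (p := p) (by rw [Nat.mod_mod]) (by rw [Nat.mod_mod]) ⟨h4, ?_⟩
    intro q hq hqP
    refine ⟨fun hc => ?_, ?_⟩
    · exact Nat.not_coprime_of_dvd_of_dvd hq.one_lt hc.1 hc.2 h3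
    · rw [← fact_iff hq hm]
      conv_lhs => rw [h5]
      rw [Nat.factorization_mul hw.ne' (rd_pos _).ne', Finsupp.add_apply, fact_rd hm hq]
      rfl
  · intro p h1 h2 ht hlarge
    rw [mem_filter] at ht
    obtain ⟨h4, h6⟩ := Rl_congr hw (p' := p) (by rw [Nat.mod_mod]) (by rw [Nat.mod_mod]) ht.2
    have hm : 0 < mm p := mm_pos h1 h2 h4
    have em : nn p = 16 * mm p := (Nat.mul_div_cancel' h4).symm
    refine ⟨h1, h2, ?_, h4, ?_⟩
    · by_contra hcon
      obtain ⟨q, hq, c1, c2⟩ := Nat.Prime.not_coprime_iff_dvd.1 hcon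
      rcases le_or_gt q P0 with h7 | h7
      · exact (h6 q hq h7).1 ⟨c1, c2⟩
      · exact (hlarge q hq h7).1 ⟨c1, c2⟩
    · refine Nat.eq_of_factorization_eq hm.ne' (Nat.mul_pos hw (rd_pos _)).ne' fun q => ?_
      by_cases hq : q.Prime
      swap
      · rw [Nat.factorization_eq_zero_of_not_prime _ hq, Nat.factorization_eq_zero_of_not_prime _ hq]
      rw [Nat.factorization_mul hw.ne' (rd_pos _).ne', Finsupp.add_apply, fact_rd hm hq]
      rcases le_or_gt q P0 with h7 | h7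
      · exact (fact_iff hq hm).2 (h6 q hq h7).2
      · obtain ⟨h8, h9⟩ := hlarge q hq h7
        have hw0 : w.factorization q = 0 := by
          refine Nat.factorization_eq_zero_of_not_dvd fun hd => ?_
          have := Nat.le_of_dvd hw hd
          omega
        have hle : (mm p).factorization q ≤ 1 := by
          by_contra hcon
          push Not at hcon
          refine h9 ?_
          rw [em]
          exact Dvd.dvd.mul_left ((hq.pow_dvd_iff_le_factorization hm.ne').2 hcon) _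
        rw [hw0, zero_add]
        by_cases hd : q ∣ mm p
        · rw [if_pos hd]
          have := (hq.dvd_iff_one_le_factorization hm.ne').1 hd
          omega
        · rw [if_neg hd]
          exact Nat.factorization_eq_zero_of_not_dvd hd

end Pool.Agent.Q9.SS
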