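import Pool.Agent.Q9.SS.Tot
import Pool.Agent.Y679.Lc

/-!
# Many semistable curves with a large quotient
-/

set_option autoImplicit false

namespace Pool.Agent.Q9.SS

open Finset Filter Topology
open Pool.Agent.TH498.AR (nn rd)
open Pool.Agent.TH867.SR (cpp coprime_count)
open Pool.Agent.Y679.Par (vv2 vv2_cop vv2_le vv2_inj)

/-- quotient larger than `W` -/
def PL (W N : ℝ) : Set (ℕ × ℕ) := {p | p ∈ PP N ∧ W * (rd (mm p) : ℝ) < (mm p : ℝ)}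

theorem rd_two_pow {j X : ℕ} (hj : 0 < j) (hX : 0 < X) : rd (2 ^ j * X) ≤ 2 * X := by
  have h : rd (2 ^ j * X) = rd (2 * X) := by
    unfold rd
    rw [Nat.primeFactors_mul (by positivity) hX.ne', Nat.primeFactors_mul (by norm_num) hX.ne',
      Nat.primeFactors_pow _ hj.ne']
  rw [h]
  exact Nat.le_of_dvd (by positivity) (rd_dvd _)

theorem PL_ge : ∃ c : ℝ, 0 < c ∧ ∀ N W : ℝ, 1 ≤ W → 262144 * W ^ 2 ≤ N →
    c * W ^ (-(1 / 3) : ℝ) * N ^ ((2 : ℝ) / 3) ≤ ((PL W N).ncard : ℝ) := by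
  classical
  refine ⟨1 / 2048, by positivity, ?_⟩
  intro N W hW hN
  have hW0 : 0 < W := by linarith
  have hW2 : 1 ≤ W ^ 2 := one_le_pow₀ hW
  have hN1 : 1 ≤ N := by linarith
  have hN0 : 0 < N := by linarith
  obtain ⟨n, hn1, hn2⟩ := exists_nat_pow_near hW (by norm_num : (1 : ℝ) < 2)
  obtain ⟨k, hk⟩ : ∃ k, k = n + 6 := ⟨_, rfl⟩
  have hk2 : (2 : ℝ) ^ k ≤ 64 * W := by
    rw [hk, pow_add]
    norm_num
    linarith
  have hkp : (0 : ℝ) < 2 ^ k := by positivity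
  obtain ⟨Z, hZ⟩ : ∃ Z : ℝ, Z = N / (64 * (2 ^ k) ^ 2) := ⟨_, rfl⟩
  have hZ0 : 0 < Z := by rw [hZ]; positivity
  have hZ1 : 1 ≤ Z := by
    rw [hZ, le_div_iff₀ (by positivity)]
    have : ((2 : ℝ) ^ k) ^ 2 ≤ (64 * W) ^ 2 := pow_le_pow_left₀ hkp.le hk2 2
    nlinarith
  obtain ⟨U, hU⟩ : ∃ U : ℕ, U = ⌊Z ^ ((1 : ℝ) / 3)⌋₊ := ⟨_, rfl⟩
  have hZ3 : 1 ≤ Z ^ ((1 : ℝ) / 3) := Real.one_le_rpow hZ1 (by norm_num)
  have hU1 : 1 ≤ U := by rw [hU]; exact Nat.le_floor (by push_cast; exact hZ3)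
  have hUle : (U : ℝ) ≤ Z ^ ((1 : ℝ) / 3) := by rw [hU]; exact Nat.floor_le (by positivity)
  have hUge : Z ^ ((1 : ℝ) / 3) ≤ 2 * U := by
    have h1 : Z ^ ((1 : ℝ) / 3) - 1 < U := by rw [hU]; exact Nat.sub_one_lt_floor _
    have h2 : (1 : ℝ) ≤ U := by exact_mod_cast hU1
    linarith
  have hU3 : (U : ℝ) ^ 3 ≤ Z := by
    have := pow_le_pow_left₀ (Nat.cast_nonneg _) hUle 3
    refine this.trans (le_of_eq ?_)
    rw [← Real.rpow_natCast, ← Real.rpow_mul hZ0.le]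
    norm_num
  -- the pairs
  obtain ⟨φ, hφ⟩ : ∃ φ : (ℕ × ℕ) × ℕ → ℕ × ℕ, φ = fun x =>
    (2 ^ k * x.1.2, vv2 x.1.1 x.1.2 (x.2 + 2 ^ k)) := ⟨_, rfl⟩
  obtain ⟨S, hS⟩ : ∃ S : Finset ((ℕ × ℕ) × ℕ), S = cpp U ×ˢ range (2 ^ k) := ⟨_, rfl⟩
  have hSm : ∀ x ∈ S, 0 < x.1.1 ∧ x.1.1 ≤ x.1.2 ∧ x.1.2 ≤ U ∧ Nat.Coprime x.1.1 x.1.2 ∧
      x.2 < 2 ^ k := by
    intro x hx
    rw [hS, mem_product, cpp, mem_filter, mem_product, mem_Ioc, mem_Ioc, mem_range] at hx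
    obtain ⟨⟨⟨a1, a2⟩, a3, a4⟩, a5⟩ := hx
    exact ⟨a1.1, a3, a2.2, a4, a5⟩
  have hmem : ∀ x ∈ S, φ x ∈ PL W N := by
    intro x hx
    obtain ⟨a1, a2, a3, a4, a5⟩ := hSm x hx
    obtain ⟨m, hm⟩ : ∃ m, m = x.1.2 := ⟨_, rfl⟩
    obtain ⟨r, hr⟩ : ∃ r, r = x.1.1 := ⟨_, rfl⟩
    obtain ⟨i, hi⟩ : ∃ i, i = x.2 + 2 ^ k := ⟨_, rfl⟩
    obtain ⟨b, hb'⟩ : ∃ b, b = vv2 r m i := ⟨_, rfl⟩
    have hφx : φ x = (2 ^ k * m, b) := by rw [hφ, hb', hm, hr, hi]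
    rw [← hr, ← hm] at a2 a4
    rw [← hr] at a1
    rw [← hm] at a3
    have hm0 : 0 < m := by omega
    have hcop : Nat.Coprime (2 ^ k * m) b := by rw [hb']; exact vv2_cop a4
    have hi2 : i < 2 * 2 ^ k := by omega
    have hbm : b ≤ 2 * (2 * 2 ^ k) * m := by rw [hb']; exact vv2_le a2 hi2
    have hbge : 2 ^ k * m ≤ b := by
      rw [hb']
      unfold vv2
      have h1 : 2 ^ k * m ≤ (2 * i + if r % 2 = 1 then 0 else 1) * m := by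
        refine Nat.mul_le_mul_right m ?_
        omega
      omega
    have h2k : 0 < 2 ^ k * m := by positivity
    have hb0 : 0 < b := by omega
    obtain ⟨X, hX⟩ : ∃ X, X = m * b * (2 ^ k * m + b) := ⟨_, rfl⟩
    have hX0 : 0 < X := by rw [hX]; positivity
    have hnn : nn (2 ^ k * m, b) = 16 * (2 ^ (n + 2) * X) := by
      unfold nn
      rw [hX]
      simp only
      have : (2 : ℕ) ^ k = 16 * 2 ^ (n + 2) := by rw [hk]; ring
      rw [this]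
      ring
    have h16 : 16 ∣ nn (2 ^ k * m, b) := by rw [hnn]; exact Dvd.intro _ rfl
    have hmm : mm (2 ^ k * m, b) = 2 ^ (n + 2) * X := by
      unfold mm
      rw [hnn, Nat.mul_div_cancel_left _ (by norm_num)]
    have hrd : rd (mm (2 ^ k * m, b)) ≤ 2 * X := by
      rw [hmm]
      exact rd_two_pow (by omega) hX0
    have hrdR : (rd (mm (2 ^ k * m, b)) : ℝ) ≤ 2 * X := by exact_mod_cast hrd
    rw [hφx]
    refine ⟨⟨⟨h2k, hbge, hcop, h16⟩, ?_⟩, ?_⟩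
    · refine hrdR.trans ?_
      have r1 : (m : ℝ) ≤ U := by exact_mod_cast a3
      have r2 : (b : ℝ) ≤ 4 * 2 ^ k * U := by
        have : (b : ℝ) ≤ 2 * (2 * 2 ^ k) * m := by exact_mod_cast hbm
        calc (b : ℝ) ≤ 2 * (2 * 2 ^ k) * m := this
          _ ≤ 2 * (2 * 2 ^ k) * U := mul_le_mul_of_nonneg_left r1 (by positivity)
          _ = _ := by ring
      have r0 : (0 : ℝ) ≤ m := Nat.cast_nonneg _
      have r00 : (0 : ℝ) ≤ b := Nat.cast_nonneg _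
      have r3 : (2 : ℝ) ^ k * m + b ≤ 5 * 2 ^ k * U := by
        have : (2 : ℝ) ^ k * m ≤ 2 ^ k * U := mul_le_mul_of_nonneg_left r1 hkp.le
        linarith
      have hXR : (X : ℝ) = (m : ℝ) * b * (2 ^ k * m + b) := by rw [hX]; push_cast; ring
      rw [hXR]
      calc 2 * ((m : ℝ) * b * (2 ^ k * m + b)) ≤ 2 * (U * (4 * 2 ^ k * U) * (5 * 2 ^ k * U)) := by
            refine mul_le_mul_of_nonneg_left ?_ (by norm_num)
            exact mul_le_mul (mul_le_mul r1 r2 r00 (Nat.cast_nonneg _)) r3 (by positivity)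
              (by positivity)
        _ = (40 * (2 ^ k) ^ 2) * (U : ℝ) ^ 3 := by ring
        _ ≤ (64 * (2 ^ k) ^ 2) * (U : ℝ) ^ 3 := by
            refine mul_le_mul_of_nonneg_right ?_ (by positivity)
            have : (0 : ℝ) ≤ (2 ^ k) ^ 2 := by positivity
            linarith
        _ ≤ (64 * (2 ^ k) ^ 2) * Z := mul_le_mul_of_nonneg_left hU3 (by positivity)
        _ = N := by rw [hZ]; field_simp
    · have h1 : W * (rd (mm (2 ^ k * m, b)) : ℝ) ≤ W * (2 * X) := mul_le_mul_of_nonneg_left hrdR hW0.le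
      refine lt_of_le_of_lt h1 ?_
      rw [hmm]
      push_cast
      have hXp : (0 : ℝ) < X := by exact_mod_cast hX0
      have e : (2 : ℝ) ^ (n + 2) * X = 2 ^ (n + 1) * (2 * X) := by ring
      rw [e]
      exact mul_lt_mul_of_pos_right hn2 (by positivity)
  have hinj : Set.InjOn φ (S : Set ((ℕ × ℕ) × ℕ)) := by
    intro x hx y hy h1
    obtain ⟨a1, a2, a3, a4, a5⟩ := hSm x hx
    obtain ⟨b1, b2, b3, b4, b5⟩ := hSm y hy
    rw [hφ] at h1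
    simp only [Prod.mk.injEq] at h1
    obtain ⟨c1, c2⟩ := h1
    have c3 : x.1.2 = y.1.2 := Nat.eq_of_mul_eq_mul_left (by positivity) c1
    rw [c3] at c2 a2
    obtain ⟨c5, c6⟩ := vv2_inj a1 a2 b1 b2 c2
    exact Prod.ext (Prod.ext c5 c3) (by omega)
  have hsub : ((S.image φ : Finset (ℕ × ℕ)) : Set (ℕ × ℕ)) ⊆ PL W N := by
    intro q hq
    rw [mem_coe, mem_image] at hq
    obtain ⟨x, hx, rfl⟩ := hq
    exact hmem x hx
  have hfin : (PL W N).Finite := (PP_fin N).subset fun _ hp => hp.1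
  have hc1 := Set.ncard_le_ncard hsub hfin
  rw [Set.ncard_coe_finset, card_image_of_injOn hinj, hS, card_product, card_range] at hc1
  have hc2 : ((cpp U).card : ℝ) * 2 ^ k ≤ ((PL W N).ncard : ℝ) := by exact_mod_cast hc1
  refine le_trans ?_ hc2
  have hc3 := coprime_count U hU1
  have hc4 : (Z ^ ((1 : ℝ) / 3)) ^ 2 / 32 ≤ ((cpp U).card : ℝ) := by
    refine le_trans ?_ hc3
    have : (Z ^ ((1 : ℝ) / 3)) ^ 2 ≤ (2 * (U : ℝ)) ^ 2 := pow_le_pow_left₀ (by positivity) hUge 2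
    linarith
  have e1 : (Z ^ ((1 : ℝ) / 3)) ^ 2 = N ^ ((2 : ℝ) / 3) / (16 * (((2 : ℝ) ^ k) ^ ((4 : ℝ) / 3))) := by
    rw [← Real.rpow_natCast, ← Real.rpow_mul hZ0.le, hZ, Real.div_rpow hN0.le (by positivity)]
    congr 1
    · norm_num
    · rw [Real.mul_rpow (by norm_num) (by positivity),
        ← Real.rpow_natCast ((2 : ℝ) ^ k) 2, ← Real.rpow_mul hkp.le]
      have : (64 : ℝ) = 4 ^ (3 : ℝ) := by norm_num
      rw [this, ← Real.rpow_mul (by norm_num)]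
      norm_num
  have e2 : ((2 : ℝ) ^ k) ^ ((4 : ℝ) / 3) = 2 ^ k * ((2 : ℝ) ^ k) ^ ((1 : ℝ) / 3) := by
    rw [show (4 : ℝ) / 3 = 1 + 1 / 3 by norm_num, Real.rpow_add hkp, Real.rpow_one]
  have e3 : ((2 : ℝ) ^ k) ^ ((1 : ℝ) / 3) ≤ 4 * W ^ ((1 : ℝ) / 3) := by
    calc ((2 : ℝ) ^ k) ^ ((1 : ℝ) / 3) ≤ (64 * W) ^ ((1 : ℝ) / 3) :=
          Real.rpow_le_rpow hkp.le hk2 (by norm_num)
      _ = 64 ^ ((1 : ℝ) / 3) * W ^ ((1 : ℝ) / 3) := Real.mul_rpow (by norm_num) hW0.le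
      _ = 4 * W ^ ((1 : ℝ) / 3) := by
          congr 1
          rw [show (64 : ℝ) = 4 ^ (3 : ℝ) by norm_num, ← Real.rpow_mul (by norm_num)]
          norm_num
  have hWp : 0 < W ^ ((1 : ℝ) / 3) := by positivity
  have hkp3 : 0 < ((2 : ℝ) ^ k) ^ ((1 : ℝ) / 3) := by positivity
  calc 1 / 2048 * W ^ (-(1 / 3) : ℝ) * N ^ ((2 : ℝ) / 3)
      = N ^ ((2 : ℝ) / 3) / (32 * 16) * (4 * W ^ ((1 : ℝ) / 3))⁻¹ := by
        rw [Real.rpow_neg hW0.le, mul_inv]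
        ring
    _ ≤ N ^ ((2 : ℝ) / 3) / (32 * 16) * (((2 : ℝ) ^ k) ^ ((1 : ℝ) / 3))⁻¹ := by
        refine mul_le_mul_of_nonneg_left (inv_anti₀ hkp3 e3) (by positivity)
    _ = (Z ^ ((1 : ℝ) / 3)) ^ 2 / 32 * 2 ^ k := by
        rw [e1, e2]
        field_simp
    _ ≤ ((cpp U).card : ℝ) * 2 ^ k := mul_le_mul_of_nonneg_right hc4 hkp.le

end Pool.Agent.Q9.SS
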