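import Pool.Agent.Q9.SS.Law

/-!
# The pairs with a large height
-/

set_option autoImplicit false

namespace Pool.Agent.Q9.SS

open Finset Filter Topology Pool.Agent.TH498.AR
open Pool.Agent.Y679.Jl (fixed')
open Pool.Agent.Y911.AA (viol saving triples_finite')
open Pool.Agent.Results.MP_1ea25c_nt.AlmostAllTriples (triples rad3)

/-- the invariant `c₄` -/
def c4 (p : ℕ × ℕ) : ℕ := p.1 ^ 2 + p.1 * p.2 + p.2 ^ 2

/-- the pairs with `c₄ ³ > K N²` -/
def PH (K N : ℝ) : Set (ℕ × ℕ) := {p | p ∈ PP N ∧ K * (rd (mm p) : ℝ) ^ 2 < (c4 p : ℝ) ^ 3}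

theorem mm_ge {p : ℕ × ℕ} (hp : p ∈ PQ) : 1728 * (mm p : ℝ) ^ 2 ≤ (c4 p : ℝ) ^ 3 := by
  obtain ⟨h1, h2, h3, h4⟩ := hp
  have e : (16 * (mm p : ℝ)) = (p.1 : ℝ) * p.2 * (p.1 + p.2) := by
    have := nn_mm h4
    unfold nn at this
    exact_mod_cast this.symm
  have e2 : (c4 p : ℝ) = (p.1 : ℝ) ^ 2 + p.1 * p.2 + (p.2 : ℝ) ^ 2 := by
    unfold c4
    push_cast
    ring
  have e3 : (mm p : ℝ) ^ 2 = ((p.1 : ℝ) * p.2 * (p.1 + p.2)) ^ 2 / 256 := by
    rw [← e]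
    ring
  rw [e2, e3]
  nlinarith [sq_nonneg (((p.2 : ℝ) - p.1) * (2 * p.1 + p.2) * (p.1 + 2 * p.2))]

theorem rdmm_pos (p : ℕ × ℕ) : (0 : ℝ) < rd (mm p) := by exact_mod_cast rd_pos _

/-- **the tail** -/
theorem PH_le {σ : ℝ} (hσ : 0 < σ) (hσ1 : σ < 1 / 6) : ∃ η C : ℝ, 0 < η ∧ 0 < C ∧ ∀ N K : ℝ, 1 ≤ N → 1 ≤ K →
    ((PH K N).ncard : ℝ) ≤ C * (K ^ (-σ) * N ^ ((2 : ℝ) / 3) + N ^ (2 / 3 - η)) := by
  classical
  obtain ⟨ν, Cs, hν, hν1, hCs, hsav⟩ := saving (ε := 1 / 240) (by norm_num)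
  obtain ⟨C1, C2, hC1, hC2, hfix⟩ := fixed' (σ := 2 * σ) (by linarith) (by linarith)
  refine ⟨min ν (1 / 120), 4 * Cs + C1 * (16 + 2), by positivity, by positivity, ?_⟩
  intro N K hN hK
  have hN0 : 0 < N := by linarith
  have hK0 : 0 < K := by linarith
  have hfin : (PH K N).Finite := (PP_fin N).subset fun p hp => hp.1
  obtain ⟨Y, hY⟩ : ∃ Y : ℝ, Y = 2 * N := ⟨_, rfl⟩
  have hY1 : 1 ≤ Y := by rw [hY]; linarith
  have hY0 : 0 < Y := by linarith
  obtain ⟨W, hWd⟩ : ∃ W : ℝ, W = max 1 (Real.sqrt (K / 108)) := ⟨_, rfl⟩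
  have hW1 : 1 ≤ W := by rw [hWd]; exact le_max_left _ _
  obtain ⟨E, hE⟩ : ∃ E : Finset (ℕ × ℕ), E = hfin.toFinset.filter
    (fun p => ((p.1 + p.2 : ℕ) : ℝ) ≤ Y ^ (1 / 3 + 1 / 240 : ℝ)) := ⟨_, rfl⟩
  have hEm : ∀ p ∈ E, p ∈ PH K N ∧ ((p.1 + p.2 : ℕ) : ℝ) ≤ Y ^ (1 / 3 + 1 / 240 : ℝ) := by
    intro p hp
    rw [hE, mem_filter, Set.Finite.mem_toFinset] at hp
    exact hp
  have hcE : (E.card : ℝ) ≤ C1 * (W ^ (-(2 * σ)) * Y ^ ((2 : ℝ) / 3) + Y ^ (2 / 3 - 1 / 120 : ℝ)) := by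
    have h1 := hfix ∅ Y W hY1 hW1 E (by
      intro p hp
      obtain ⟨⟨⟨hpq, hpN⟩, hpK⟩, hps⟩ := hEm p hp
      have h3' := rd3_le hpq
      have hpos := rdmm_pos p
      obtain ⟨h1, h2, h3, h4⟩ := id hpq
      have hrad : (radP ∅ (p.1 * p.2 * (p.1 + p.2)) : ℝ) = rad3 p := by
        have : radP ∅ (p.1 * p.2 * (p.1 + p.2)) = rad3 p := by
          unfold radP
          simp only [Finset.notMem_empty, not_false_eq_true, Finset.filter_true]
          rfl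
        exact_mod_cast this
      refine ⟨h1, h2, h3, ?_, hps, ?_⟩
      · rw [hrad, hY]
        linarith
      · -- W p.1 ≤ psi3 p.2
        have hpsi : (psi3 ∅ p : ℝ) * rad3 p = (p.1 : ℝ) * p.2 * (p.1 + p.2) := by
          have := Pool.Agent.Y680.S.psi_eq h3
          have e : rd (p.1 * p.2 * (p.1 + p.2)) = rad3 p := rfl
          rw [e] at this
          exact_mod_cast this
        have a1 : (0 : ℝ) < p.1 := by exact_mod_cast h1
        have a2 : (p.1 : ℝ) ≤ p.2 := by exact_mod_cast h2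
        have a3 : (0 : ℝ) < p.2 := by linarith
        have hrad0 : (0 : ℝ) < rad3 p := by
          have : 0 < rad3 p := rd_pos _
          exact_mod_cast this
        have hpsi1 : (1 : ℝ) ≤ psi3 ∅ p := by
          have : psi3 ∅ p ≠ 0 := by
            intro h0
            rw [h0] at hpsi
            simp only [Nat.cast_zero, zero_mul] at hpsi
            have : (0 : ℝ) < (p.1 : ℝ) * p.2 * (p.1 + p.2) := by positivity
            linarith
          exact_mod_cast Nat.one_le_iff_ne_zero.2 this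
        rw [hWd, max_mul_of_nonneg _ _ a1.le]
        refine max_le ?_ ?_
        · rw [one_mul]
          calc (p.1 : ℝ) ≤ 1 * p.2 := by linarith
            _ ≤ (psi3 ∅ p : ℝ) * p.2 := mul_le_mul_of_nonneg_right hpsi1 a3.le
        · -- the height
          have b1 : (c4 p : ℝ) ≤ 3 * (p.2 : ℝ) ^ 2 := by
            unfold c4
            push_cast
            nlinarith
          have b2 : (c4 p : ℝ) ^ 3 ≤ 27 * (p.2 : ℝ) ^ 6 := by
            have := pow_le_pow_left₀ (Nat.cast_nonneg _) b1 3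
            refine this.trans (le_of_eq ?_)
            ring
          have b3 : K * (rd (mm p) : ℝ) ^ 2 < 27 * (p.2 : ℝ) ^ 6 := lt_of_lt_of_le hpK b2
          have b4 : K / 108 * (rad3 p : ℝ) ^ 2 ≤ (p.2 : ℝ) ^ 6 := by
            have : (rad3 p : ℝ) ^ 2 ≤ (2 * rd (mm p)) ^ 2 := pow_le_pow_left₀ hrad0.le h3' 2
            have h5 := mul_le_mul_of_nonneg_left this (by positivity : (0 : ℝ) ≤ K / 108)
            have h6 : K / 108 * (2 * (rd (mm p) : ℝ)) ^ 2 = K * (rd (mm p) : ℝ) ^ 2 / 27 := by ring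
            rw [h6] at h5
            linarith
          have b5 : Real.sqrt (K / 108) * rad3 p ≤ (p.2 : ℝ) ^ 3 := by
            have h5 : (Real.sqrt (K / 108) * rad3 p) ^ 2 ≤ ((p.2 : ℝ) ^ 3) ^ 2 := by
              rw [mul_pow, Real.sq_sqrt (by positivity)]
              calc _ ≤ (p.2 : ℝ) ^ 6 := b4
                _ = _ := by ring
            exact (pow_le_pow_iff_left₀ (by positivity) (by positivity) two_ne_zero).1 h5
          have b6 : Real.sqrt (K / 108) * p.1 * rad3 p ≤ (psi3 ∅ p : ℝ) * p.2 * rad3 p := by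
            calc Real.sqrt (K / 108) * p.1 * rad3 p = p.1 * (Real.sqrt (K / 108) * rad3 p) := by ring
              _ ≤ p.1 * (p.2 : ℝ) ^ 3 := mul_le_mul_of_nonneg_left b5 a1.le
              _ ≤ (p.1 * p.2 * (p.1 + p.2)) * p.2 := by nlinarith [mul_pos a1 a3, mul_pos (mul_pos a1 a1) (mul_pos a3 a3)]
              _ = (psi3 ∅ p : ℝ) * p.2 * rad3 p := by rw [← hpsi]; ring
          exact le_of_mul_le_mul_right b6 hrad0)
    rw [card_empty, pow_zero, mul_one] at h1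
    exact h1
  have hsub : PH K N ⊆ (E : Set (ℕ × ℕ)) ∪ viol (1 / 3 + 1 / 240) Y := by
    intro p hp
    rcases le_or_gt ((p.1 + p.2 : ℕ) : ℝ) (Y ^ (1 / 3 + 1 / 240 : ℝ)) with h | h
    · left
      rw [mem_coe, hE, mem_filter, Set.Finite.mem_toFinset]
      exact ⟨hp, h⟩
    · right
      obtain ⟨⟨hpq, hpN⟩, -⟩ := hp
      have h3' := rd3_le hpq
      obtain ⟨h1, h2, h3, h4⟩ := hpq
      have h5 : (rad3 p : ℝ) ≤ Y := by rw [hY]; linarith
      refine ⟨⟨h1, h2, h3, h5⟩, ?_⟩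
      exact (Real.rpow_le_rpow (Nat.cast_nonneg _) h5 (by norm_num)).trans h.le
  have hvf : (viol (1 / 3 + 1 / 240) Y).Finite := (triples_finite' Y).subset fun p hp => hp.1
  have h1 : ((PH K N).ncard : ℝ) ≤ (E.card : ℝ) + ((viol (1 / 3 + 1 / 240) Y).ncard : ℝ) := by
    have h2 := Set.ncard_le_ncard hsub ((Finset.finite_toSet _).union hvf)
    have h3 := Set.ncard_union_le (E : Set (ℕ × ℕ)) (viol (1 / 3 + 1 / 240) Y)
    rw [Set.ncard_coe_finset] at h3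
    exact_mod_cast h2.trans h3
  have h2 := hsav Y hY1
  -- comparison of the powers
  have e1 : Y ^ (2 / 3 - ν) ≤ 2 * N ^ (2 / 3 - min ν (1 / 120)) := by
    rw [hY, Real.mul_rpow (by norm_num) hN0.le]
    refine mul_le_mul ?_ (Real.rpow_le_rpow_of_exponent_le hN (by linarith [min_le_left ν (1 / 120)]))
      (by positivity) (by norm_num)
    calc (2 : ℝ) ^ (2 / 3 - ν) ≤ 2 ^ (1 : ℝ) := Real.rpow_le_rpow_of_exponent_le (by norm_num) (by linarith)
      _ = 2 := Real.rpow_one _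
  have e2 : Y ^ (2 / 3 - 1 / 120 : ℝ) ≤ 2 * N ^ (2 / 3 - min ν (1 / 120)) := by
    rw [hY, Real.mul_rpow (by norm_num) hN0.le]
    refine mul_le_mul ?_ (Real.rpow_le_rpow_of_exponent_le hN (by linarith [min_le_right ν (1 / 120)]))
      (by positivity) (by norm_num)
    calc (2 : ℝ) ^ (2 / 3 - 1 / 120 : ℝ) ≤ 2 ^ (1 : ℝ) :=
          Real.rpow_le_rpow_of_exponent_le (by norm_num) (by norm_num)
      _ = 2 := Real.rpow_one _
  have e3 : Y ^ ((2 : ℝ) / 3) ≤ 2 * N ^ ((2 : ℝ) / 3) := by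
    rw [hY, Real.mul_rpow (by norm_num) hN0.le]
    refine mul_le_mul_of_nonneg_right ?_ (by positivity)
    calc (2 : ℝ) ^ ((2 : ℝ) / 3) ≤ 2 ^ (1 : ℝ) := Real.rpow_le_rpow_of_exponent_le (by norm_num) (by norm_num)
      _ = 2 := Real.rpow_one _
  have e4 : W ^ (-(2 * σ)) ≤ 8 * K ^ (-σ) := by
    have hs : 0 < Real.sqrt (K / 108) := by positivity
    calc W ^ (-(2 * σ)) ≤ (Real.sqrt (K / 108)) ^ (-(2 * σ)) :=
          Real.rpow_le_rpow_of_nonpos hs (by rw [hWd]; exact le_max_right _ _) (by linarith)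
      _ = (K / 108) ^ (-σ) := by
          rw [Real.sqrt_eq_rpow, ← Real.rpow_mul (by positivity)]
          congr 1
          ring
      _ = K ^ (-σ) * 108 ^ σ := by
          rw [Real.div_rpow hK0.le (by norm_num), Real.rpow_neg (by norm_num : (0 : ℝ) ≤ 108), div_inv_eq_mul]
      _ ≤ K ^ (-σ) * 8 := by
          refine mul_le_mul_of_nonneg_left ?_ (by positivity)
          calc (108 : ℝ) ^ σ ≤ 108 ^ (1 / 3 : ℝ) :=
                Real.rpow_le_rpow_of_exponent_le (by norm_num) (by linarith)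
            _ ≤ 512 ^ (1 / 3 : ℝ) := Real.rpow_le_rpow (by norm_num) (by norm_num) (by norm_num)
            _ = 8 := by
                rw [show (512 : ℝ) = 8 ^ (3 : ℝ) by norm_num, ← Real.rpow_mul (by norm_num)]
                norm_num
      _ = _ := by ring
  obtain ⟨R, hR⟩ : ∃ R : ℝ, R = N ^ (2 / 3 - min ν (1 / 120)) := ⟨_, rfl⟩
  obtain ⟨Q, hQ⟩ : ∃ Q : ℝ, Q = K ^ (-σ) * N ^ ((2 : ℝ) / 3) := ⟨_, rfl⟩
  have hR0 : 0 ≤ R := by rw [hR]; positivity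
  have hQ0 : 0 ≤ Q := by rw [hQ]; positivity
  rw [← hR] at e1 e2 ⊢
  rw [← hQ]
  have e5 : W ^ (-(2 * σ)) * Y ^ ((2 : ℝ) / 3) ≤ 16 * Q := by
    calc W ^ (-(2 * σ)) * Y ^ ((2 : ℝ) / 3) ≤ (8 * K ^ (-σ)) * (2 * N ^ ((2 : ℝ) / 3)) :=
          mul_le_mul e4 e3 (by positivity) (by positivity)
      _ = 16 * Q := by rw [hQ]; ring
  have e6 : C1 * (W ^ (-(2 * σ)) * Y ^ ((2 : ℝ) / 3) + Y ^ (2 / 3 - 1 / 120 : ℝ)) ≤ C1 * (16 * Q + 2 * R) :=
    mul_le_mul_of_nonneg_left (add_le_add e5 e2) (by linarith)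
  have e7 : Cs * Y ^ (2 / 3 - ν) ≤ Cs * (2 * R) := mul_le_mul_of_nonneg_left e1 hCs.le
  have e8 : 0 ≤ C1 * Q := by positivity
  have e9 : 0 ≤ C1 * R := by positivity
  have e10 : 0 ≤ Cs * Q := by positivity
  have e11 : 0 ≤ Cs * R := by positivity
  calc ((PH K N).ncard : ℝ) ≤ C1 * (16 * Q + 2 * R) + Cs * (2 * R) := by linarith
    _ ≤ (4 * Cs + C1 * (16 + 2)) * (Q + R) := by nlinarith

end Pool.Agent.Q9.SS
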