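import Pool.Agent.Q9.SS.Tail

/-!
# The limiting distribution for the pairs
-/

set_option autoImplicit false

namespace Pool.Agent.Q9.SS

open Finset Filter Topology Pool.Agent.TH498.AR
open Pool.Agent.Y679.Jl (Cj Cj_iff ps_ge_one Fl Fl_small Fl_nonneg Fl_le_one Fl_tendsto)

/-- height at most `K N²` -/
def PK (K N : ℝ) : Set (ℕ × ℕ) := {p | p ∈ PP N ∧ (c4 p : ℝ) ^ 3 ≤ K * (rd (mm p) : ℝ) ^ 2}

theorem mm_real {p : ℕ × ℕ} (hp : p ∈ PQ) : 16 * (mm p : ℝ) = (p.1 : ℝ) * p.2 * (p.1 + p.2) := by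
  have := nn_mm hp.2.2.2
  unfold nn at this
  exact_mod_cast this.symm

theorem Cj_c4 {p : ℕ × ℕ} (hp : p ∈ PQ) (t : ℝ) :
    Cj t ((p.1 : ℝ) / p.2) ↔ (c4 p : ℝ) ^ 3 ≤ 1728 * t * (mm p : ℝ) ^ 2 := by
  have h1 := mm_real hp
  have a1 : (0 : ℝ) < p.1 := by exact_mod_cast hp.1
  have a3 : (0 : ℝ) < p.2 := by
    have : 0 < p.2 := by have := hp.1; have := hp.2.1; omega
    exact_mod_cast this
  have e2 : (c4 p : ℝ) = (p.1 : ℝ) ^ 2 + p.1 * p.2 + (p.2 : ℝ) ^ 2 := by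
    unfold c4
    push_cast
    ring
  have e3 : (mm p : ℝ) ^ 2 = ((p.1 : ℝ) * p.2 * (p.1 + p.2)) ^ 2 / 256 := by
    rw [← h1]
    ring
  have l1 : 4 * (1 + (p.1 : ℝ) / p.2 + ((p.1 : ℝ) / p.2) ^ 2) ^ 3 * (p.2 : ℝ) ^ 6 = 4 * (c4 p : ℝ) ^ 3 := by
    rw [e2]
    field_simp
    ring
  have l2 : t * (27 * ((p.1 : ℝ) / p.2 * (1 + (p.1 : ℝ) / p.2)) ^ 2) * (p.2 : ℝ) ^ 6 =
      4 * (1728 * t * (mm p : ℝ) ^ 2) := by
    rw [e3]
    field_simp
    ring
  unfold Cj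
  constructor
  · intro h
    have h2 := mul_le_mul_of_nonneg_right h (by positivity : (0 : ℝ) ≤ (p.2 : ℝ) ^ 6)
    rw [l1, l2] at h2
    linarith
  · intro h
    refine le_of_mul_le_mul_right ?_ (by positivity : (0 : ℝ) < (p.2 : ℝ) ^ 6)
    rw [l1, l2]
    linarith

/-- every pair has a quotient -/
theorem exists_quot {p : ℕ × ℕ} (hp : p ∈ PQ) : ∃ w : ℕ, 0 < w ∧ mm p = w * rd (mm p) := by
  obtain ⟨w, hw⟩ := rd_dvd (mm p)
  have hm := mm_pos hp.1 (by have := hp.1; have := hp.2.1; omega) hp.2.2.2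
  refine ⟨w, Nat.pos_of_ne_zero fun h0 => ?_, by rw [mul_comm]; exact hw⟩
  rw [h0, mul_zero] at hw
  omega

theorem quot_unique {p : ℕ × ℕ} {w w' : ℕ} (h : mm p = w * rd (mm p)) (h' : mm p = w' * rd (mm p)) : w = w' :=
  Nat.eq_of_mul_eq_mul_right (rd_pos _) (h.symm.trans h')

theorem Pw_fin (w : ℕ) (N : ℝ) : (Pw w N).Finite := (PP_fin N).subset fun _ hp => hp.1

theorem Pj_fin (w : ℕ) (t N : ℝ) : (Pj w t N).Finite := (PP_fin N).subset fun _ hp => hp.1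

theorem sum_le (W : ℕ) (N : ℝ) : ∑ w ∈ Icc 1 W, ((Pw w N).ncard : ℝ) ≤ ((PP N).ncard : ℝ) := by
  classical
  have h1 : (Icc 1 W).biUnion (fun w => (Pw_fin w N).toFinset) ⊆ (PP_fin N).toFinset := by
    intro p hp
    obtain ⟨w, -, hw⟩ := mem_biUnion.1 hp
    rw [Set.Finite.mem_toFinset] at hw ⊢
    exact hw.1
  have h2 := card_le_card h1
  rw [card_biUnion] at h2
  · rw [Set.ncard_eq_toFinset_card _ (PP_fin N)]
    have h3 : ∀ w ∈ Icc 1 W, ((Pw w N).ncard : ℝ) = ((Pw_fin w N).toFinset.card : ℝ) := fun w _ => by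
      rw [Set.ncard_eq_toFinset_card _ (Pw_fin w N)]
    rw [sum_congr rfl h3]
    exact_mod_cast h2
  · intro w _ w' _ hne
    rw [Function.onFun, disjoint_left]
    intro p hp hp'
    rw [Set.Finite.mem_toFinset] at hp hp'
    exact hne (quot_unique hp.2 hp'.2)

theorem le_sum (W : ℕ) (N : ℝ) :
    ((PP N).ncard : ℝ) ≤ ∑ w ∈ Icc 1 W, ((Pw w N).ncard : ℝ) + ((PH ((W : ℝ) ^ 2) N).ncard : ℝ) := by
  classical
  have hfH : (PH ((W : ℝ) ^ 2) N).Finite := (PP_fin N).subset fun _ hp => hp.1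
  have h1 : PP N ⊆ (((Icc 1 W).biUnion (fun w => (Pw_fin w N).toFinset) : Finset (ℕ × ℕ)) : Set (ℕ × ℕ)) ∪
      PH ((W : ℝ) ^ 2) N := by
    intro p hp
    obtain ⟨w, hw, hq⟩ := exists_quot hp.1
    rcases le_or_gt w W with h | h
    · left
      rw [mem_coe, mem_biUnion]
      exact ⟨w, mem_Icc.2 ⟨hw, h⟩, by rw [Set.Finite.mem_toFinset]; exact ⟨hp, hq⟩⟩
    · right
      refine ⟨hp, lt_of_lt_of_le ?_ (mm_ge hp.1)⟩
      have h2 : (mm p : ℝ) = w * rd (mm p) := by exact_mod_cast hq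
      have h3 : (W : ℝ) < w := by exact_mod_cast h
      have h4 := rdmm_pos p
      have h5 : ((W : ℝ) * rd (mm p)) ^ 2 < (mm p : ℝ) ^ 2 := by
        refine pow_lt_pow_left₀ ?_ (by positivity) two_ne_zero
        rw [h2]
        exact mul_lt_mul_of_pos_right h3 h4
      rw [mul_pow] at h5
      nlinarith [sq_nonneg (mm p : ℝ)]
  have h2 := Set.ncard_le_ncard h1 ((Finset.finite_toSet _).union hfH)
  have h3 := Set.ncard_union_le (((Icc 1 W).biUnion (fun w => (Pw_fin w N).toFinset) : Finset (ℕ × ℕ)) :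
    Set (ℕ × ℕ)) (PH ((W : ℝ) ^ 2) N)
  rw [Set.ncard_coe_finset] at h3
  have h4 : ((Icc 1 W).biUnion (fun w => (Pw_fin w N).toFinset)).card ≤ ∑ w ∈ Icc 1 W, (Pw w N).ncard := by
    refine card_biUnion_le.trans (sum_le_sum fun w _ => ?_)
    rw [Set.ncard_eq_toFinset_card _ (Pw_fin w N)]
  exact_mod_cast (h2.trans h3).trans (Nat.add_le_add_right h4 _)

theorem PK_split {K : ℝ} {W : ℕ} (hW : K < 1728 * ((W : ℝ) + 1) ^ 2) (N : ℝ) :
    ((PK K N).ncard : ℝ) = ∑ w ∈ Icc 1 W, ((Pj w (K / (1728 * (w : ℝ) ^ 2)) N).ncard : ℝ) := by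
  classical
  have hfK : (PK K N).Finite := (PP_fin N).subset fun _ hp => hp.1
  have key : ∀ {p : ℕ × ℕ} {w : ℕ}, p ∈ PQ → 0 < w → mm p = w * rd (mm p) →
      ((c4 p : ℝ) ^ 3 ≤ K * (rd (mm p) : ℝ) ^ 2 ↔ Cj (K / (1728 * (w : ℝ) ^ 2)) ((p.1 : ℝ) / p.2)) := by
    intro p w hp hw hq
    have hw0 : (0 : ℝ) < w := by exact_mod_cast hw
    have h2 : (mm p : ℝ) = w * rd (mm p) := by exact_mod_cast hq
    rw [Cj_c4 hp]
    have e : 1728 * (K / (1728 * (w : ℝ) ^ 2)) * (mm p : ℝ) ^ 2 = K * (rd (mm p) : ℝ) ^ 2 := by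
      conv_lhs => rw [h2]
      field_simp
    rw [e]
  have hset : hfK.toFinset = (Icc 1 W).biUnion
      (fun w => (Pj_fin w (K / (1728 * (w : ℝ) ^ 2)) N).toFinset) := by
    ext p
    rw [mem_biUnion, Set.Finite.mem_toFinset]
    constructor
    · rintro ⟨hp, hK⟩
      obtain ⟨w, hw, hq⟩ := exists_quot hp.1
      refine ⟨w, mem_Icc.2 ⟨hw, ?_⟩, ?_⟩
      · by_contra hcon
        push Not at hcon
        have h2 : (mm p : ℝ) = w * rd (mm p) := by exact_mod_cast hq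
        have h3 : (W : ℝ) + 1 ≤ w := by exact_mod_cast hcon
        have h4 := rdmm_pos p
        have h5 := mm_ge hp.1
        have h6 : (((W : ℝ) + 1) * rd (mm p)) ^ 2 ≤ (mm p : ℝ) ^ 2 := by
          refine pow_le_pow_left₀ (by positivity) ?_ 2
          rw [h2]
          exact mul_le_mul_of_nonneg_right h3 h4.le
        rw [mul_pow] at h6
        have h7 : K * (rd (mm p) : ℝ) ^ 2 < 1728 * ((W : ℝ) + 1) ^ 2 * (rd (mm p) : ℝ) ^ 2 :=
          mul_lt_mul_of_pos_right hW (by positivity)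
        linarith
      · rw [Set.Finite.mem_toFinset]
        exact ⟨hp, hq, (key hp.1 hw hq).1 hK⟩
    · rintro ⟨w, hw, hp⟩
      rw [Set.Finite.mem_toFinset] at hp
      obtain ⟨h1, h2, h3⟩ := hp
      exact ⟨h1, (key h1.1 (mem_Icc.1 hw).1 h2).2 h3⟩
  rw [Set.ncard_eq_toFinset_card _ hfK, hset, card_biUnion]
  · push_cast
    refine sum_congr rfl fun w _ => ?_
    rw [Set.ncard_eq_toFinset_card _ (Pj_fin w (K / (1728 * (w : ℝ) ^ 2)) N)]
  · intro w _ w' _ hne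
    rw [Function.onFun, disjoint_left]
    intro p hp hp'
    rw [Set.Finite.mem_toFinset] at hp hp'
    exact hne (quot_unique hp.2.1 hp'.2.1)

/-- **the limiting distribution** -/
theorem total : ∃ (A : ℝ) (α : ℕ → ℝ), (∀ w, 0 ≤ α w) ∧ HasSum α A ∧
    Tendsto (fun N : ℝ => ((PP N).ncard : ℝ) / N ^ ((2 : ℝ) / 3)) atTop (𝓝 A) ∧
    (∀ (w : ℕ) (t : ℝ), Tendsto (fun N : ℝ => ((Pj w t N).ncard : ℝ) / N ^ ((2 : ℝ) / 3)) atTop
      (𝓝 (α w * Fl t))) ∧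
    (∀ K : ℝ, Tendsto (fun N : ℝ => ((PK K N).ncard : ℝ) / N ^ ((2 : ℝ) / 3)) atTop
      (𝓝 (∑' w : ℕ, α w * Fl (K / (1728 * (w : ℝ) ^ 2))))) ∧
    Tendsto (fun K : ℝ => ∑' w : ℕ, α w * Fl (K / (1728 * (w : ℝ) ^ 2))) atTop (𝓝 A) := by
  classical
  choose α hα0 hαz hαT hαJ using Pj_limit
  obtain ⟨η, C, hη, hC, htail⟩ := PH_le (σ := 1 / 8) (by norm_num) (by norm_num)
  obtain ⟨A, hA, hT⟩ := sum_limit (T := fun N => ((PP N).ncard : ℝ)) (F := fun w N => ((Pw w N).ncard : ℝ))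
    (α := α) (σ := 1 / 4) hη hC (by norm_num) (hαz 0 rfl) hα0 hαT (fun W N _ => sum_le W N)
    (fun W hW N hN => by
      refine (le_sum W N).trans (add_le_add le_rfl ?_)
      have hW1 : (1 : ℝ) ≤ W := by exact_mod_cast hW
      refine (htail N ((W : ℝ) ^ 2) hN (one_le_pow₀ hW1)).trans (le_of_eq ?_)
      congr 3
      rw [← Real.rpow_natCast, ← Real.rpow_mul (by linarith)]
      norm_num)
  refine ⟨A, α, hα0, hA, hT, hαJ, fun K => ?_, ?_⟩
  · obtain ⟨W, hW⟩ : ∃ W : ℕ, K < 1728 * ((W : ℝ) + 1) ^ 2 := by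
      obtain ⟨W, hW⟩ := exists_nat_ge |K|
      refine ⟨W, ?_⟩
      have := le_abs_self K
      have h0 : (0 : ℝ) ≤ W := Nat.cast_nonneg _
      nlinarith
    have e : ∑' w : ℕ, α w * Fl (K / (1728 * (w : ℝ) ^ 2)) =
        ∑ w ∈ Icc 1 W, α w * Fl (K / (1728 * (w : ℝ) ^ 2)) := by
      refine tsum_eq_sum fun w hw => ?_
      rcases Nat.eq_zero_or_pos w with rfl | h0
      · rw [hαz 0 rfl, zero_mul]
      · have h1 : W + 1 ≤ w := by
          by_contra hcon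
          exact hw (mem_Icc.2 ⟨h0, by omega⟩)
        have h2 : (W : ℝ) + 1 ≤ w := by exact_mod_cast h1
        rw [Fl_small, mul_zero]
        have hw0 : (0 : ℝ) < w := by exact_mod_cast h0
        rw [div_lt_one (by positivity)]
        have h3 : ((W : ℝ) + 1) ^ 2 ≤ (w : ℝ) ^ 2 := pow_le_pow_left₀ (by positivity) h2 2
        linarith
    rw [e]
    simp only [PK_split hW, sum_div]
    exact tendsto_finsetSum _ fun w _ => hαJ w _
  · have h1 : Tendsto (fun K : ℝ => ∑' w : ℕ, α w * Fl (K / (1728 * (w : ℝ) ^ 2))) atTop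
        (𝓝 (∑' w : ℕ, α w)) := by
      refine tendsto_tsum_of_dominated_convergence hA.summable (fun w => ?_) (Eventually.of_forall fun K w => ?_)
      · rcases Nat.eq_zero_or_pos w with rfl | h0
        · simp only [hαz 0 rfl, zero_mul]
          exact tendsto_const_nhds
        · have hw0 : (0 : ℝ) < w := by exact_mod_cast h0
          have h2 : Tendsto (fun K : ℝ => K / (1728 * (w : ℝ) ^ 2)) atTop atTop :=
            tendsto_id.atTop_div_const (by positivity)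
          have h3 := (Fl_tendsto.comp h2).const_mul (α w)
          rw [mul_one] at h3
          exact h3
      · rw [Real.norm_of_nonneg (mul_nonneg (hα0 w) (Fl_nonneg _))]
        exact mul_le_of_le_one_right (hα0 w) (Fl_le_one _)
    rwa [hA.tsum_eq] at h1

end Pool.Agent.Q9.SS
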